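import Mathlib

namespace Pool.Agent.Lib_helper58.RToda

open Finset Polynomial

/-- The nodes `a`, `100 a`, `400 a`, `900 a`, ... -/
noncomputable def node (a : ℝ) (i : ℕ) : ℝ := if i = 0 then a else 100 * a * (i:ℝ) ^ 2

lemma node_zero (a : ℝ) : node a 0 = a := by simp [node]

lemma node_pos (a : ℝ) (i : ℕ) (hi : 1 ≤ i) : node a i = 100 * a * (i:ℝ) ^ 2 := by
  unfold node
  rw [if_neg (by omega)]

lemma node_inj (a : ℝ) (ha : 0 < a) : Function.Injective (node a) := by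
  intro i j h
  rcases Nat.eq_zero_or_pos i with hi | hi <;> rcases Nat.eq_zero_or_pos j with hj | hj
  · omega
  · rw [hi, node_zero, node_pos a j hj] at h
    have h1 : (1:ℝ) ≤ (j:ℝ) := by exact_mod_cast hj
    nlinarith [mul_pos ha ha, mul_nonneg ha.le (sq_nonneg ((j:ℝ) - 1)), mul_nonneg ha.le (sub_nonneg.2 h1)]
  · rw [hj, node_zero, node_pos a i hi] at h
    have h1 : (1:ℝ) ≤ (i:ℝ) := by exact_mod_cast hi
    nlinarith [mul_pos ha ha, mul_nonneg ha.le (sq_nonneg ((i:ℝ) - 1)), mul_nonneg ha.le (sub_nonneg.2 h1)]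
  · rw [node_pos a i hi, node_pos a j hj] at h
    have h1 : (i:ℝ) ^ 2 = (j:ℝ) ^ 2 := by
      have : (0:ℝ) < 100 * a := by positivity
      exact mul_left_cancel₀ this.ne' h
    have h2 : i ^ 2 = j ^ 2 := by exact_mod_cast h1
    exact Nat.pow_left_injective (by norm_num) h2

/-- The products of the Lagrange weights, first part. -/
lemma gprod_lt (i : ℕ) (hi : 1 ≤ i) : ∀ K, K + 1 ≤ i →
    (∏ j ∈ Finset.range K, ((j:ℝ) + 1) ^ 2 / |(i:ℝ) ^ 2 - ((j:ℝ) + 1) ^ 2|) * ((i + K).factorial : ℝ)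
      = ((K.factorial : ℝ)) ^ 2 * ((i - 1 - K).factorial : ℝ) * i := by
  intro K
  induction K with
  | zero =>
    intro _
    simp only [Finset.range_zero, Finset.prod_empty, add_zero, one_mul, Nat.factorial_zero,
      Nat.cast_one, one_pow, Nat.sub_zero]
    have := Nat.mul_factorial_pred (by omega : i ≠ 0)
    rw [mul_comm]
    exact_mod_cast this.symm
  | succ K ih =>
    intro hK
    have ih' := ih (by omega)
    rw [Finset.prod_range_succ]
    obtain ⟨r, hr⟩ : ∃ r, i = K + 2 + r := ⟨i - (K + 2), by omega⟩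
    have e1 : i + (K + 1) = (i + K) + 1 := by ring
    have e2 : i - 1 - K = (i - 1 - (K + 1)) + 1 := by omega
    rw [e1, Nat.factorial_succ, Nat.factorial_succ K]
    rw [e2, Nat.factorial_succ] at ih'
    have e3 : ((i - 1 - (K + 1) + 1 : ℕ) : ℝ) = (i:ℝ) - (K + 1) := by
      rw [hr]
      have : K + 2 + r - 1 - (K + 1) + 1 = r + 1 := by omega
      rw [this]; push_cast; ring
    have e4 : |(i:ℝ) ^ 2 - ((K:ℝ) + 1) ^ 2| = ((i:ℝ) - (K + 1)) * ((i:ℝ) + (K + 1)) := by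
      have h1 : (i:ℝ) ^ 2 - ((K:ℝ) + 1) ^ 2 = ((i:ℝ) - (K + 1)) * ((i:ℝ) + (K + 1)) := by ring
      rw [h1, abs_of_nonneg]
      have : (0:ℝ) ≤ (i:ℝ) - (K + 1) := by rw [hr]; push_cast; linarith [(Nat.cast_nonneg r : (0:ℝ) ≤ r)]
      positivity
    have hpos : (0:ℝ) < (i:ℝ) - (K + 1) := by
      rw [hr]; push_cast; linarith [(Nat.cast_nonneg r : (0:ℝ) ≤ r)]
    have hpos2 : (0:ℝ) < (i:ℝ) + (K + 1) := by positivity
    push_cast
    push_cast at ih' e3
    rw [e4]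
    rw [e3] at ih'
    set P := ∏ j ∈ Finset.range K, ((j:ℝ) + 1) ^ 2 / |(i:ℝ) ^ 2 - ((j:ℝ) + 1) ^ 2| with hP
    have : P * (((K:ℝ) + 1) ^ 2 / (((i:ℝ) - (K + 1)) * ((i:ℝ) + (K + 1)))) *
        (((i:ℝ) + K + 1) * ((i + K).factorial : ℝ))
        = (P * ((i + K).factorial : ℝ)) * (((K:ℝ) + 1) ^ 2 / ((i:ℝ) - (K + 1))) := by
      field_simp
      ring
    rw [this, ih']
    field_simp

/-- The products of the Lagrange weights, second part. -/
lemma gprod_ge (i : ℕ) (hi : 1 ≤ i) : ∀ K, i ≤ K →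
    (∏ j ∈ (Finset.range K).erase (i - 1), ((j:ℝ) + 1) ^ 2 / |(i:ℝ) ^ 2 - ((j:ℝ) + 1) ^ 2|) *
      (((K - i).factorial : ℝ) * ((K + i).factorial : ℝ))
      = 2 * ((K.factorial : ℝ)) ^ 2 := by
  intro K hK
  induction K, hK using Nat.le_induction with
  | base =>
    have h1 := gprod_lt i hi (i - 1) (by omega)
    have e1 : (Finset.range i).erase (i - 1) = Finset.range (i - 1) := by
      ext x
      simp only [Finset.mem_erase, Finset.mem_range]
      omega
    rw [e1]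
    obtain ⟨r, rfl⟩ : ∃ r, i = r + 1 := ⟨i - 1, by omega⟩
    simp only [Nat.add_sub_cancel, Nat.sub_self, Nat.factorial_zero, Nat.cast_one, one_mul] at h1 ⊢
    have e2 : r + 1 + (r + 1) = (r + 1 + r) + 1 := by ring
    rw [e2, Nat.factorial_succ (r + 1 + r), Nat.factorial_succ r]
    push_cast
    push_cast at h1
    set P := ∏ j ∈ Finset.range r, ((j:ℝ) + 1) ^ 2 / |((r:ℝ) + 1) ^ 2 - ((j:ℝ) + 1) ^ 2| with hP
    have : P * (((r:ℝ) + 1 + r + 1) * ((r + 1 + r).factorial : ℝ))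
        = (P * ((r + 1 + r).factorial : ℝ)) * (2 * ((r:ℝ) + 1)) := by ring
    rw [this, h1]
    ring
  | succ K hK ih =>
    have e1 : (Finset.range (K + 1)).erase (i - 1) = insert K ((Finset.range K).erase (i - 1)) := by
      ext x
      simp only [Finset.mem_erase, Finset.mem_range, Finset.mem_insert]
      omega
    rw [e1, Finset.prod_insert (by simp)]
    obtain ⟨r, hr⟩ : ∃ r, K = i + r := ⟨K - i, by omega⟩
    have e2 : K + 1 - i = (K - i) + 1 := by omega
    have e3 : K + 1 + i = (K + i) + 1 := by ring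
    rw [e2, e3, Nat.factorial_succ (K - i), Nat.factorial_succ (K + i), Nat.factorial_succ K]
    have e4 : (((K - i + 1 : ℕ)) : ℝ) = (K:ℝ) + 1 - i := by
      have : K - i + 1 = r + 1 := by omega
      rw [this, hr]; push_cast; ring
    have hpos : (0:ℝ) < (K:ℝ) + 1 - i := by
      rw [hr]; push_cast; linarith [(Nat.cast_nonneg r : (0:ℝ) ≤ r)]
    have hpos2 : (0:ℝ) < (K:ℝ) + 1 + i := by positivity
    have e5 : |(i:ℝ) ^ 2 - ((K:ℝ) + 1) ^ 2| = ((K:ℝ) + 1 - i) * ((K:ℝ) + 1 + i) := by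
      have h1 : (i:ℝ) ^ 2 - ((K:ℝ) + 1) ^ 2 = -(((K:ℝ) + 1 - i) * ((K:ℝ) + 1 + i)) := by ring
      rw [h1, abs_neg, abs_of_nonneg (by positivity)]
    set P := ∏ j ∈ (Finset.range K).erase (i - 1), ((j:ℝ) + 1) ^ 2 / |(i:ℝ) ^ 2 - ((j:ℝ) + 1) ^ 2|
      with hP
    rw [e5]
    push_cast
    push_cast at e4
    rw [e4]
    have : ((K:ℝ) + 1) ^ 2 / (((K:ℝ) + 1 - i) * ((K:ℝ) + 1 + i)) * P *
        (((K:ℝ) + 1 - i) * ((K - i).factorial : ℝ) * (((K:ℝ) + i + 1) * ((K + i).factorial : ℝ)))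
        = ((K:ℝ) + 1) ^ 2 * (P * (((K - i).factorial : ℝ) * ((K + i).factorial : ℝ))) := by
      field_simp
      ring
    rw [this, ih]
    ring

lemma gprod_le (i K : ℕ) (hi : 1 ≤ i) (hK : i ≤ K) :
    ∏ j ∈ (Finset.range K).erase (i - 1), ((j:ℝ) + 1) ^ 2 / |(i:ℝ) ^ 2 - ((j:ℝ) + 1) ^ 2| ≤ 2 := by
  have h := gprod_ge i hi K hK
  have h1 : (K.factorial) ^ 2 ≤ (K - i).factorial * (K + i).factorial := by
    have a1 : (2 * K).choose (K - i) ≤ (2 * K).choose K := by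
      have := Nat.choose_le_centralBinom (K - i) K
      rwa [Nat.centralBinom_eq_two_mul_choose] at this
    have a2 := Nat.choose_mul_factorial_mul_factorial (show K - i ≤ 2 * K by omega)
    have a3 := Nat.choose_mul_factorial_mul_factorial (show K ≤ 2 * K by omega)
    have e1 : 2 * K - (K - i) = K + i := by omega
    have e2 : 2 * K - K = K := by omega
    rw [e1] at a2
    rw [e2] at a3
    have a4 : 0 < (2 * K).choose K := Nat.choose_pos (by omega)
    have a5 : (2 * K).choose K * (K.factorial ^ 2)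
        ≤ (2 * K).choose K * ((K - i).factorial * (K + i).factorial) := by
      calc (2 * K).choose K * (K.factorial ^ 2) = (2 * K).factorial := by rw [← a3]; ring
        _ = (2 * K).choose (K - i) * ((K - i).factorial * (K + i).factorial) := by
            rw [← a2]; ring
        _ ≤ _ := Nat.mul_le_mul_right _ a1
    exact Nat.le_of_mul_le_mul_left a5 a4
  have h2 : ((K.factorial : ℝ)) ^ 2 ≤ ((K - i).factorial : ℝ) * ((K + i).factorial : ℝ) := by
    exact_mod_cast h1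
  have h3 : (0:ℝ) < ((K - i).factorial : ℝ) * ((K + i).factorial : ℝ) := by positivity
  have h4 : (∏ j ∈ (Finset.range K).erase (i - 1), ((j:ℝ) + 1) ^ 2 / |(i:ℝ) ^ 2 - ((j:ℝ) + 1) ^ 2|) *
      (((K - i).factorial : ℝ) * ((K + i).factorial : ℝ))
      ≤ 2 * (((K - i).factorial : ℝ) * ((K + i).factorial : ℝ)) := by
    rw [h]; linarith
  exact le_of_mul_le_mul_right h4 h3

lemma sum_small (K : ℕ) :
    ∑ i ∈ Finset.range K, (2:ℝ) / (100 * ((i:ℝ) + 1) ^ 2 - 1)
      ≤ 2 / 75 * (2 - 1 / ((K:ℝ) + 1 / 2)) := by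
  induction K with
  | zero => norm_num
  | succ K ih =>
    rw [Finset.sum_range_succ]
    have hK : (0:ℝ) ≤ (K:ℝ) := Nat.cast_nonneg K
    have h1 : (2:ℝ) / (100 * ((K:ℝ) + 1) ^ 2 - 1)
        ≤ 2 / 75 * (1 / ((K:ℝ) + 1 / 2) - 1 / ((K:ℝ) + 1 + 1 / 2)) := by
      have e : 1 / ((K:ℝ) + 1 / 2) - 1 / ((K:ℝ) + 1 + 1 / 2)
          = 1 / (((K:ℝ) + 1 / 2) * ((K:ℝ) + 1 + 1 / 2)) := by
        rw [div_sub_div _ _ (by positivity) (by positivity)]
        congr 1
        ring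
      rw [e, div_mul_div_comm, mul_one]
      apply div_le_div_of_nonneg_left (by norm_num) (by positivity)
      nlinarith
    push_cast
    linarith

/-- The weights of the interpolation of the value at `0`. -/
noncomputable def wt (a : ℝ) (K i : ℕ) : ℝ :=
  ∏ j ∈ (Finset.range (K + 1)).erase i, ((node a i - node a j)⁻¹ * (0 - node a j))

lemma eval_zero_eq (a : ℝ) (ha : 0 < a) (K : ℕ) (R : ℝ[X]) (hdeg : R.degree < ((K + 1 : ℕ) : WithBot ℕ)) :
    R.eval 0 = ∑ i ∈ Finset.range (K + 1), R.eval (node a i) * wt a K i := by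
  have hinj : Set.InjOn (node a) (Finset.range (K + 1) : Finset ℕ) :=
    (node_inj a ha).injOn
  have h := Lagrange.eq_interpolate (s := Finset.range (K + 1)) (v := node a) (f := R) hinj
    (by rw [Finset.card_range]; exact hdeg)
  conv_lhs => rw [h]
  rw [Lagrange.interpolate_apply, Polynomial.eval_finsetSum]
  refine Finset.sum_congr rfl fun i _ => ?_
  rw [Polynomial.eval_mul, Polynomial.eval_C]
  congr 1
  unfold Lagrange.basis wt
  rw [Polynomial.eval_prod]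
  refine Finset.prod_congr rfl fun j _ => ?_
  unfold Lagrange.basisDivisor
  simp

lemma wt_zero (a : ℝ) (ha : 0 < a) (K : ℕ) : 1 ≤ wt a K 0 := by
  unfold wt
  have e1 : (Finset.range (K + 1)).erase 0 = (Finset.range K).image Nat.succ := by
    ext x
    simp only [Finset.mem_erase, Finset.mem_range, Finset.mem_image]
    constructor
    · rintro ⟨h1, h2⟩
      exact ⟨x - 1, by omega, by omega⟩
    · rintro ⟨y, h1, rfl⟩
      exact ⟨by omega, by omega⟩
  rw [e1, Finset.prod_image (fun x _ y _ h => Nat.succ_injective h)]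
  have h : ∀ j ∈ Finset.range K, (1:ℝ) ≤ (node a 0 - node a (Nat.succ j))⁻¹ * (0 - node a (Nat.succ j)) := by
    intro j _
    rw [node_zero, node_pos a _ (by omega)]
    push_cast
    have hj : (0:ℝ) ≤ (j:ℝ) := Nat.cast_nonneg j
    have h1 : a - 100 * a * ((j:ℝ) + 1) ^ 2 = -(a * (100 * ((j:ℝ) + 1) ^ 2 - 1)) := by ring
    have h2 : (0:ℝ) < 100 * ((j:ℝ) + 1) ^ 2 - 1 := by nlinarith
    rw [h1, inv_neg, zero_sub, neg_mul_neg, inv_mul_eq_div, le_div_iff₀ (by positivity)]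
    nlinarith
  calc (1:ℝ) = ∏ j ∈ Finset.range K, (1:ℝ) := by simp
    _ ≤ _ := Finset.prod_le_prod (fun _ _ => zero_le_one) h

lemma wt_succ (a : ℝ) (ha : 0 < a) (K i : ℕ) (hi : i < K) :
    |wt a K (i + 1)| ≤ 2 / (100 * ((i:ℝ) + 1) ^ 2 - 1) := by
  unfold wt
  have e1 : (Finset.range (K + 1)).erase (i + 1)
      = insert 0 (((Finset.range K).erase i).image Nat.succ) := by
    ext x
    simp only [Finset.mem_erase, Finset.mem_range, Finset.mem_image, Finset.mem_insert]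
    constructor
    · rintro ⟨h1, h2⟩
      rcases Nat.eq_zero_or_pos x with h | h
      · exact Or.inl h
      · exact Or.inr ⟨x - 1, ⟨by omega, by omega⟩, by omega⟩
    · rintro (rfl | ⟨y, ⟨h1, h2⟩, rfl⟩)
      · exact ⟨by omega, by omega⟩
      · exact ⟨by omega, by omega⟩
  have hi0 : (0:ℝ) ≤ (i:ℝ) := Nat.cast_nonneg i
  have h2 : (0:ℝ) < 100 * ((i:ℝ) + 1) ^ 2 - 1 := by nlinarith
  rw [e1, Finset.prod_insert (by simp),
    Finset.prod_image (fun x _ y _ h => Nat.succ_injective h), abs_mul, Finset.abs_prod]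
  have f1 : |(node a (i + 1) - node a 0)⁻¹ * (0 - node a 0)| = 1 / (100 * ((i:ℝ) + 1) ^ 2 - 1) := by
    rw [node_zero, node_pos a _ (by omega)]
    push_cast
    have h1 : 100 * a * ((i:ℝ) + 1) ^ 2 - a = a * (100 * ((i:ℝ) + 1) ^ 2 - 1) := by ring
    rw [h1, zero_sub, mul_neg, abs_neg, abs_of_nonneg (by positivity)]
    field_simp
  have f2 : ∀ j ∈ (Finset.range K).erase i,
      |(node a (i + 1) - node a (Nat.succ j))⁻¹ * (0 - node a (Nat.succ j))|
      = ((j:ℝ) + 1) ^ 2 / |((i + 1 : ℕ) : ℝ) ^ 2 - ((j:ℝ) + 1) ^ 2| := by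
    intro j _
    rw [node_pos a _ (by omega), node_pos a _ (by omega)]
    push_cast
    have h1 : 100 * a * ((i:ℝ) + 1) ^ 2 - 100 * a * ((j:ℝ) + 1) ^ 2
        = (100 * a) * (((i:ℝ) + 1) ^ 2 - ((j:ℝ) + 1) ^ 2) := by ring
    rw [h1, zero_sub, mul_neg, abs_neg, abs_mul, abs_inv, abs_mul, abs_of_pos (by positivity : (0:ℝ) < 100 * a),
      abs_of_nonneg (by positivity : (0:ℝ) ≤ 100 * a * ((j:ℝ) + 1) ^ 2), inv_mul_eq_div]
    rw [mul_div_mul_left _ _ (by positivity)]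
  rw [f1, Finset.prod_congr rfl f2]
  have h3 := gprod_le (i + 1) K (by omega) (by omega)
  rw [Nat.add_sub_cancel] at h3
  calc 1 / (100 * ((i:ℝ) + 1) ^ 2 - 1) *
        ∏ j ∈ (Finset.range K).erase i, ((j:ℝ) + 1) ^ 2 / |((i + 1 : ℕ) : ℝ) ^ 2 - ((j:ℝ) + 1) ^ 2|
      ≤ 1 / (100 * ((i:ℝ) + 1) ^ 2 - 1) * 2 := by
        apply mul_le_mul_of_nonneg_left h3 (by positivity)
    _ = _ := by ring

/-- Polynomials of small degree cannot jump near `0`. -/
theorem poly_contra (m K : ℕ) (hK : 1 ≤ K) (hm : 200 * K ^ 2 ≤ m) (R : ℝ[X])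
    (hdeg : R.degree < ((K + 1 : ℕ) : WithBot ℕ)) (h0 : R.eval 0 ≤ 1 / 3 + 1 / 100)
    (ha : 1 / 2 - 1 / 100 ≤ R.eval (2 / (m:ℝ)))
    (hb : ∀ θ : ℝ, 0 ≤ θ → θ ≤ 1 → |R.eval θ| ≤ 1 + 1 / 100) : False := by
  have hm0 : (0:ℝ) < m := by
    have : 0 < m := by
      have : 1 ≤ K ^ 2 := Nat.one_le_pow _ _ (by omega)
      omega
    exact_mod_cast this
  set a : ℝ := 2 / (m:ℝ) with hadef
  have hapos : 0 < a := by positivity
  have hmr : (200:ℝ) * (K:ℝ) ^ 2 ≤ m := by exact_mod_cast hm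
  have h := eval_zero_eq a hapos K R hdeg
  rw [Finset.sum_range_succ'] at h
  rw [node_zero] at h
  have hbound : |∑ i ∈ Finset.range K, R.eval (node a (i + 1)) * wt a K (i + 1)|
      ≤ (1 + 1 / 100) * (4 / 75) := by
    refine (Finset.abs_sum_le_sum_abs _ _).trans ?_
    have : ∀ i ∈ Finset.range K, |R.eval (node a (i + 1)) * wt a K (i + 1)|
        ≤ (1 + 1 / 100) * (2 / (100 * ((i:ℝ) + 1) ^ 2 - 1)) := by
      intro i hi
      rw [Finset.mem_range] at hi
      rw [abs_mul]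
      apply mul_le_mul _ (wt_succ a hapos K i hi) (abs_nonneg _) (by norm_num)
      apply hb
      · rw [node_pos a _ (by omega)]; positivity
      · rw [node_pos a _ (by omega)]
        have h1 : ((i + 1 : ℕ) : ℝ) ≤ K := by exact_mod_cast hi
        have h2 : ((i + 1 : ℕ) : ℝ) ^ 2 ≤ (K:ℝ) ^ 2 := by
          apply pow_le_pow_left₀ (by positivity) h1
        have h3 : 100 * a * ((i + 1 : ℕ) : ℝ) ^ 2 ≤ 100 * a * (K:ℝ) ^ 2 := by
          apply mul_le_mul_of_nonneg_left h2 (by positivity)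
        refine h3.trans ?_
        rw [hadef]
        rw [show 100 * (2 / (m:ℝ)) * (K:ℝ) ^ 2 = (200 * (K:ℝ) ^ 2) / m by ring]
        rw [div_le_one hm0]
        exact hmr
    refine (Finset.sum_le_sum this).trans ?_
    rw [← Finset.mul_sum]
    apply mul_le_mul_of_nonneg_left _ (by norm_num)
    refine (sum_small K).trans ?_
    have : (0:ℝ) < 1 / ((K:ℝ) + 1 / 2) := by positivity
    linarith
  have hwt := wt_zero a hapos K
  have h1 : R.eval a ≤ R.eval a * wt a K 0 := by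
    have : 0 ≤ R.eval a := by linarith
    nlinarith
  have h2 := (abs_le.1 hbound).1
  linarith

end Pool.Agent.Lib_helper58.RToda
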