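import Pool.Agent.Lib_helper58.RToda.Fourier
import Pool.Agent.Lib_helper58.RToda.Poly

namespace Pool.Agent.Lib_helper58.RToda

open Finset Polynomial Pool.Agent.Lib_helper62.PToda

section
variable {W M : Type} [Fintype W] [Nonempty W] [Fintype M] [DecidableEq M]

/-- The density with bias `x`. -/
noncomputable def dens (χ : W → M → ℝ) (x : ℝ) (w : W) : ℝ := ∏ j, (1 + x * χ w j)

omit [Fintype W] [Nonempty W] [DecidableEq M] in
lemma dens_eq (χ : W → M → ℝ) (x : ℝ) (w : W) :
    dens χ x w = ∑ S : Finset M, x ^ S.card * ∏ j ∈ S, χ w j := by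
  unfold dens
  rw [Finset.prod_one_add, Finset.powerset_univ]
  refine Finset.sum_congr rfl fun S _ => ?_
  rw [Finset.prod_mul_distrib, Finset.prod_const]

omit [Nonempty W] [DecidableEq M] in
lemma av_mul_dens (χ : W → M → ℝ) (P : W → ℝ) (x : ℝ) :
    av (fun w => P w * dens χ x w)
      = ∑ S : Finset M, x ^ S.card * av (fun w => P w * ∏ j ∈ S, χ w j) := by
  have e : (fun w => P w * dens χ x w)
      = (fun w => ∑ S : Finset M, x ^ S.card * (P w * ∏ j ∈ S, χ w j)) := by
    funext w
    rw [dens_eq, Finset.mul_sum]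
    refine Finset.sum_congr rfl fun S _ => by ring
  rw [e, av_sum]
  refine Finset.sum_congr rfl fun S _ => ?_
  rw [av_mul_left]

lemma av_dens (χ : W → M → ℝ)
    (hav : ∀ S : Finset M, S.Nonempty → av (fun w => ∏ j ∈ S, χ w j) = 0) (x : ℝ) :
    av (fun w => dens χ x w) = 1 := by
  have h := av_mul_dens χ (fun _ => 1) x
  simp only [one_mul] at h
  rw [h, Finset.sum_eq_single ∅]
  · simp [av_const]
  · intro S _ hS
    rw [hav S (Finset.nonempty_iff_ne_empty.2 hS), mul_zero]
  · intro h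
    exact absurd (Finset.mem_univ _) h

omit [Fintype W] [Nonempty W] [DecidableEq M] in
lemma dens_nonneg (χ : W → M → ℝ) (hχ : ∀ w j, χ w j = 1 ∨ χ w j = -1) (x : ℝ)
    (h0 : -1 ≤ x) (h1 : x ≤ 1) (w : W) : 0 ≤ dens χ x w := by
  unfold dens
  apply Finset.prod_nonneg
  intro j _
  rcases hχ w j with h | h <;> rw [h] <;> linarith

omit [DecidableEq M] in
lemma tail_bound (m : ℕ) (hcard : Fintype.card M = m) (hm : 1 ≤ m) (δ : ℝ) (hδ : 0 ≤ δ)
    (hδm : m * δ ≤ 1) (K : ℕ) :
    ∑ S ∈ (Finset.univ : Finset (Finset M)).filter (fun S => ¬ S.card ≤ K), δ ^ S.card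
      ≤ 3 * (m * δ) ^ (K + 1) := by
  have hm0 : (0:ℝ) < m := by exact_mod_cast hm
  have h1 : ∀ S ∈ (Finset.univ : Finset (Finset M)).filter (fun S => ¬ S.card ≤ K),
      δ ^ S.card ≤ (m * δ) ^ (K + 1) * (1 / m) ^ S.card := by
    intro S hS
    rw [Finset.mem_filter] at hS
    have hc : K + 1 ≤ S.card := by omega
    have e : δ ^ S.card = (m * δ) ^ S.card * (1 / m) ^ S.card := by
      rw [← mul_pow]
      congr 1
      field_simp
    rw [e]
    apply mul_le_mul_of_nonneg_right _ (by positivity)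
    exact pow_le_pow_of_le_one (by positivity) hδm hc
  refine (Finset.sum_le_sum h1).trans ?_
  rw [← Finset.mul_sum]
  have h2 : ∑ S ∈ (Finset.univ : Finset (Finset M)).filter (fun S => ¬ S.card ≤ K),
      ((1:ℝ) / m) ^ S.card ≤ 3 := by
    calc ∑ S ∈ (Finset.univ : Finset (Finset M)).filter (fun S => ¬ S.card ≤ K),
        ((1:ℝ) / m) ^ S.card ≤ ∑ S : Finset M, ((1:ℝ) / m) ^ S.card :=
          Finset.sum_le_sum_of_subset_of_nonneg (Finset.filter_subset _ _)
            (fun _ _ _ => by positivity)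
      _ = ∏ _j : M, (1 + (1:ℝ) / m) := by
          rw [Finset.prod_one_add, Finset.powerset_univ]
          refine Finset.sum_congr rfl fun S _ => ?_
          rw [Finset.prod_const]
      _ = (1 + (1:ℝ) / m) ^ m := by rw [Finset.prod_const, Finset.card_univ, hcard]
      _ ≤ (Real.exp (1 / m)) ^ m := by
          apply pow_le_pow_left₀ (by positivity)
          have := Real.add_one_le_exp ((1:ℝ) / m)
          linarith
      _ = Real.exp 1 := by
          rw [← Real.exp_nat_mul]
          congr 1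
          field_simp
      _ ≤ 3 := by
          have := Real.exp_one_lt_d9
          linarith
  calc (m * δ) ^ (K + 1) * ∑ S ∈ (Finset.univ : Finset (Finset M)).filter
        (fun S => ¬ S.card ≤ K), ((1:ℝ) / m) ^ S.card
      ≤ (m * δ) ^ (K + 1) * 3 := mul_le_mul_of_nonneg_left h2 (by positivity)
    _ = _ := by ring

theorem analytic_core (χ : W → M → ℝ) (hχ : ∀ w j, χ w j = 1 ∨ χ w j = -1)
    (hav : ∀ S : Finset M, S.Nonempty → av (fun w => ∏ j ∈ S, χ w j) = 0)
    (P : W → ℝ) (hP0 : ∀ w, 0 ≤ P w) (hP1 : ∀ w, P w ≤ 1) (T δ : ℝ) (hT : 0 ≤ T) (hδ : 0 ≤ δ)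
    (hhat : ∀ S : Finset M, |av (fun w => P w * ∏ j ∈ S, χ w j)| ≤ T * δ ^ S.card)
    (hno : ∀ w, (∀ j, χ w j = 1) → P w ≤ 1 / 3) (hyes : ∀ w, (∃ j, χ w j = -1) → 2 / 3 ≤ P w)
    (m K : ℕ) (hcard : Fintype.card M = m) (hK : 1 ≤ K) (hm : 200 * K ^ 2 ≤ m)
    (hδm : m * δ ≤ 1) (herr : T * (3 * (m * δ) ^ (K + 1)) ≤ 1 / 100) : False := by
  have hm200 : 200 ≤ m := by
    have : 1 ≤ K ^ 2 := Nat.one_le_pow _ _ (by omega)
    omega
  have hm0 : (0:ℝ) < m := by
    have : 0 < m := by omega
    exact_mod_cast this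
  set Q : ℝ → ℝ := fun x => av (fun w => P w * dens χ x w) with hQ
  set H : Finset M → ℝ := fun S => av (fun w => P w * ∏ j ∈ S, χ w j) with hH
  set R : ℝ[X] := ∑ S ∈ (Finset.univ : Finset (Finset M)).filter (fun S => S.card ≤ K),
    C (H S) * (1 - C 2 * X) ^ S.card with hR
  have hReval : ∀ θ : ℝ, R.eval θ
      = ∑ S ∈ (Finset.univ : Finset (Finset M)).filter (fun S => S.card ≤ K),
        H S * (1 - 2 * θ) ^ S.card := by
    intro θ
    rw [hR, Polynomial.eval_finsetSum]
    refine Finset.sum_congr rfl fun S _ => ?_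
    simp
  have hQR : ∀ θ : ℝ, 0 ≤ θ → θ ≤ 1 → |Q (1 - 2 * θ) - R.eval θ| ≤ 1 / 100 := by
    intro θ h0 h1
    have e : Q (1 - 2 * θ) - R.eval θ
        = ∑ S ∈ (Finset.univ : Finset (Finset M)).filter (fun S => ¬ S.card ≤ K),
          (1 - 2 * θ) ^ S.card * H S := by
      rw [hQ, hReval]
      simp only
      rw [av_mul_dens, ← Finset.sum_filter_add_sum_filter_not Finset.univ (fun S : Finset M => S.card ≤ K)]
      have : ∀ S : Finset M, (1 - 2 * θ) ^ S.card * av (fun w => P w * ∏ j ∈ S, χ w j)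
          = H S * (1 - 2 * θ) ^ S.card := fun S => by rw [hH]; ring
      simp only [this]
      rw [add_sub_cancel_left]
      exact Finset.sum_congr rfl fun S _ => mul_comm _ _
    rw [e]
    refine (Finset.abs_sum_le_sum_abs _ _).trans ?_
    have h2 : ∀ S ∈ (Finset.univ : Finset (Finset M)).filter (fun S => ¬ S.card ≤ K),
        |(1 - 2 * θ) ^ S.card * H S| ≤ T * δ ^ S.card := by
      intro S _
      rw [abs_mul, abs_pow]
      have h3 : |1 - 2 * θ| ≤ 1 := abs_le.2 ⟨by linarith, by linarith⟩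
      have h4 : |1 - 2 * θ| ^ S.card ≤ 1 := pow_le_one₀ (abs_nonneg _) h3
      have h5 := hhat S
      calc |1 - 2 * θ| ^ S.card * |H S| ≤ 1 * |H S| :=
            mul_le_mul_of_nonneg_right h4 (abs_nonneg _)
        _ ≤ T * δ ^ S.card := by rw [one_mul]; exact h5
    refine (Finset.sum_le_sum h2).trans ?_
    rw [← Finset.mul_sum]
    refine le_trans ?_ herr
    exact mul_le_mul_of_nonneg_left (tail_bound m hcard (by omega) δ hδ hδm K) hT
  have hDn := fun x h0 h1 w => dens_nonneg χ hχ x h0 h1 w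
  have hDa := av_dens χ hav
  -- bounds for Q
  have hQ0 : ∀ x, -1 ≤ x → x ≤ 1 → 0 ≤ Q x := fun x h0 h1 =>
    av_nonneg fun w => mul_nonneg (hP0 w) (hDn x h0 h1 w)
  have hQ1 : ∀ x, -1 ≤ x → x ≤ 1 → Q x ≤ 1 := by
    intro x h0 h1
    rw [← hDa x]
    apply av_mono
    intro w
    have := mul_le_mul_of_nonneg_right (hP1 w) (hDn x h0 h1 w)
    linarith
  have hD1 : ∀ w, (¬ ∀ j, χ w j = 1) → dens χ 1 w = 0 := by
    intro w hw
    push Not at hw
    obtain ⟨j, hj⟩ := hw
    have : χ w j = -1 := (hχ w j).resolve_left hj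
    unfold dens
    exact Finset.prod_eq_zero (Finset.mem_univ j) (by rw [this]; ring)
  have hQone : Q 1 ≤ 1 / 3 := by
    have : Q 1 ≤ av (fun w => (1 / 3) * dens χ 1 w) := by
      apply av_mono
      intro w
      by_cases hw : ∀ j, χ w j = 1
      · exact mul_le_mul_of_nonneg_right (hno w hw) (hDn 1 (by norm_num) le_rfl w)
      · rw [hD1 w hw]; simp
    rw [av_mul_left, hDa] at this
    linarith
  have hQx : ∀ x, -1 ≤ x → x ≤ 1 → 2 / 3 * (1 - ((1 + x) / 2) ^ m) ≤ Q x := by
    intro x h0 h1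
    have h2 : av (fun w => 2 / 3 * dens χ x w + (-(2 / 3 * ((1 + x) / 2) ^ m)) * dens χ 1 w) ≤ Q x := by
      apply av_mono
      intro w
      by_cases hw : ∀ j, χ w j = 1
      · have e1 : dens χ x w = (1 + x) ^ m := by
          unfold dens
          simp only [hw, mul_one]
          rw [Finset.prod_const, Finset.card_univ, hcard]
        have e2 : dens χ 1 w = 2 ^ m := by
          unfold dens
          simp only [hw, mul_one]
          rw [Finset.prod_const, Finset.card_univ, hcard]
          norm_num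
        have e3 : 2 / 3 * dens χ x w + (-(2 / 3 * ((1 + x) / 2) ^ m)) * dens χ 1 w = 0 := by
          rw [e1, e2, div_pow]
          field_simp
          ring
        rw [e3]
        exact mul_nonneg (hP0 w) (hDn x h0 h1 w)
      · rw [hD1 w hw, mul_zero, add_zero]
        apply mul_le_mul_of_nonneg_right _ (hDn x h0 h1 w)
        apply hyes
        push Not at hw
        obtain ⟨j, hj⟩ := hw
        exact ⟨j, (hχ w j).resolve_left hj⟩
    have h3 : av (fun w => 2 / 3 * dens χ x w + (-(2 / 3 * ((1 + x) / 2) ^ m)) * dens χ 1 w)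
        = 2 / 3 * (1 - ((1 + x) / 2) ^ m) := by
      have := av_sum (Finset.univ : Finset (Fin 2)) (fun i (w : W) =>
        if i = 0 then 2 / 3 * dens χ x w else (-(2 / 3 * ((1 + x) / 2) ^ m)) * dens χ 1 w)
      simp only [Fin.sum_univ_two, Fin.isValue, if_true, one_ne_zero, if_false] at this
      rw [this, av_mul_left, av_mul_left, hDa, hDa]
      ring
    rw [← h3]
    exact h2
  -- conclusion
  refine poly_contra m K hK hm R ?_ ?_ ?_ ?_
  · refine lt_of_le_of_lt (Polynomial.degree_sum_le _ _) ?_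
    rw [Finset.sup_lt_iff (by exact WithBot.bot_lt_coe _)]
    intro S hS
    rw [Finset.mem_filter] at hS
    have hlin : (1 - C 2 * X : ℝ[X]).natDegree ≤ 1 := by
      have : (1 - C 2 * X : ℝ[X]) = C (-2) * X + C 1 := by
        rw [Polynomial.C_neg, Polynomial.C_1]; ring
      rw [this]
      exact Polynomial.natDegree_linear_le
    have h1 : (C (H S) * (1 - C 2 * X) ^ S.card : ℝ[X]).natDegree ≤ K := by
      refine (Polynomial.natDegree_C_mul_le _ _).trans ?_
      refine (Polynomial.natDegree_pow_le).trans ?_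
      calc S.card * (1 - C 2 * X : ℝ[X]).natDegree ≤ S.card * 1 := Nat.mul_le_mul_left _ hlin
        _ ≤ K := by omega
    have h2 := Polynomial.degree_le_natDegree (p := (C (H S) * (1 - C 2 * X) ^ S.card : ℝ[X]))
    refine lt_of_le_of_lt h2 ?_
    exact_mod_cast Nat.lt_succ_of_le h1
  · have := (abs_le.1 (hQR 0 le_rfl zero_le_one)).1
    rw [mul_zero, sub_zero] at this
    linarith
  · have hθ0 : (0:ℝ) ≤ 2 / m := by positivity
    have hθ1 : (2:ℝ) / m ≤ 1 := by
      rw [div_le_one hm0]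
      have : (200:ℝ) ≤ m := by exact_mod_cast hm200
      linarith
    have h1 := (abs_le.1 (hQR (2 / m) hθ0 hθ1)).2
    have h2 := hQx (1 - 2 * (2 / m)) (by linarith) (by linarith)
    have h3 : (1 + (1 - 2 * (2 / (m:ℝ)))) / 2 = 1 - 2 / m := by ring
    rw [h3] at h2
    have h4 : (1 - 2 / (m:ℝ)) ^ m ≤ 1 / 4 := by
      calc (1 - 2 / (m:ℝ)) ^ m ≤ (Real.exp (-(2 / m))) ^ m := by
            apply pow_le_pow_left₀ (by linarith)
            have := Real.add_one_le_exp (-(2 / (m:ℝ)))
            linarith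
        _ = Real.exp (-2) := by
            rw [← Real.exp_nat_mul]
            congr 1
            field_simp
        _ ≤ 1 / 4 := by
            rw [Real.exp_neg]
            have h5 : (4:ℝ) ≤ Real.exp 2 := by
              have h6 : (2:ℝ) ≤ Real.exp 1 := by
                have := Real.add_one_le_exp (1:ℝ)
                linarith
              have h7 : Real.exp 2 = Real.exp 1 * Real.exp 1 := by
                rw [← Real.exp_add]; norm_num
              rw [h7]
              nlinarith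
            rw [one_div]
            exact inv_anti₀ (by norm_num) h5
    linarith
  · intro θ h0 h1
    have h2 := abs_le.1 (hQR θ h0 h1)
    have h3 := hQ0 (1 - 2 * θ) (by linarith) (by linarith)
    have h4 := hQ1 (1 - 2 * θ) (by linarith) (by linarith)
    rw [abs_le]
    constructor <;> linarith [h2.1, h2.2]

end

end Pool.Agent.Lib_helper58.RToda
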