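import Pool.Agent.Lib_helper62.PToda.Core

namespace Pool.Agent.Lib_helper58.RToda

open Finset Pool.Agent.Lib_helper62.PToda

/-- The indicator function of a proposition. -/
noncomputable def ind (p : Prop) : ℝ := by
  classical exact if p then 1 else 0

lemma ind_true {p : Prop} (h : p) : ind p = 1 := by
  unfold ind; simp [h]

lemma ind_false {p : Prop} (h : ¬ p) : ind p = 0 := by
  unfold ind; simp [h]

lemma ind_nonneg (p : Prop) : 0 ≤ ind p := by
  by_cases h : p
  · rw [ind_true h]; norm_num
  · rw [ind_false h]

lemma ind_le_one (p : Prop) : ind p ≤ 1 := by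
  by_cases h : p
  · rw [ind_true h]
  · rw [ind_false h]; norm_num

lemma ind_congr {p q : Prop} (h : p ↔ q) : ind p = ind q := by
  have : p = q := propext h
  rw [this]

/-- Exact decomposition of a deterministic algorithm into cylinder intersections. -/
theorem coverDet {β : Type} {J : Type} {L d : ℕ} (inst : Inp J L d → β → Bool)
    (owner : β → Option (Fin (d+1)))
    (hown : ∀ t w w', AgreeOff t w w' → ∀ b, owner b ≠ some t → inst w b = inst w' b)
    (N₀ κ₀ : ℕ) (B : ℕ) (hB1 : 1 ≤ B) (hB : ((N₀ + 1) ^ κ₀ + 1) ^ (d + 1) ≤ B) (S : Strat β)
    (hdet : S.Deterministic) :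
    ∀ D, S.Within N₀ κ₀ d D → ∃ (ι : Type) (_ : Fintype ι)
      (φ : ι → Fin (d+1) → Inp J L d → Bool), Fintype.card ι ≤ B ^ D ∧
      (∀ i t w w', AgreeOff t w w' → φ i t w = φ i t w') ∧
      ∀ w, ind (S.Accepts (inst w)) = ∑ i, ∏ t, (if φ i t w = true then (1:ℝ) else 0) := by
  classical
  induction S with
  | answer b =>
    intro D _
    refine ⟨Unit, inferInstance, fun _ _ _ => b, ?_, fun _ _ _ _ _ => rfl, ?_⟩
    · rw [Fintype.card_unit]
      exact Nat.one_le_pow _ _ (by omega)
    · intro w
      cases b
      · rw [ind_false (by simp [Strat.Accepts])]
        simp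
      · rw [ind_true (by simp [Strat.Accepts])]
        simp
  | guess s0 s1 h0 h1 => exact absurd hdet (by simp [Strat.Deterministic])
  | count N κ T next ih =>
    intro D hD
    simp only [Strat.Deterministic] at hdet
    cases D with
    | zero => exact absurd hD (by simp [Strat.Within])
    | succ D =>
      simp only [Strat.Within] at hD
      obtain ⟨hN, hκ, hdep, hnext⟩ := hD
      choose ι hf φ hc hi ha using fun c => ih c (hdet c) D (hnext c)
      -- the part of the count which belongs to player t
      let F : Fin (d+1) → Inp J L d → ℕ := fun t w =>
        (Finset.univ.filter (fun y => (T y).eval (inst w) = true ∧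
          missP owner ((T y).path (inst w)) = t)).card
      have hFsum : ∀ w, ∑ t, F t w = countOf T (inst w) := by
        intro w
        unfold countOf
        rw [Finset.card_eq_sum_card_fiberwise
          (f := fun y => missP owner ((T y).path (inst w))) (t := Finset.univ)
          (fun _ _ => Finset.mem_univ _)]
        refine Finset.sum_congr rfl fun t _ => ?_
        rw [Finset.filter_filter]
      have hFlt : ∀ t w, F t w < N ^ κ + 1 := by
        intro t w
        have := Finset.card_filter_le (Finset.univ : Finset (Fin κ → Fin N))
          (fun y => (T y).eval (inst w) = true ∧ missP owner ((T y).path (inst w)) = t)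
        simp only [Finset.card_univ, Fintype.card_fun, Fintype.card_fin] at this
        have h2 : F t w ≤ N ^ κ := this
        omega
      have hFind : ∀ t w w', AgreeOff t w w' → F t w = F t w' := by
        have aux : ∀ t w w', AgreeOff t w w' → ∀ y, ((T y).eval (inst w) = true ∧
            missP owner ((T y).path (inst w)) = t) → ((T y).eval (inst w') = true ∧
            missP owner ((T y).path (inst w')) = t) := by
          intro t w w' h y hy
          have hs := missP_spec owner ((T y).path (inst w))
            (((T y).path_length (inst w)).trans (hdep y))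
          rw [hy.2] at hs
          have hcg := DT.congr (inst w) (inst w') (T y)
            (fun b hb => hown t w w' h b (hs b hb))
          rw [hcg.1, hcg.2]
          exact hy
        intro t w w' h
        have : (Finset.univ.filter (fun y => (T y).eval (inst w) = true ∧
            missP owner ((T y).path (inst w)) = t))
          = (Finset.univ.filter (fun y => (T y).eval (inst w') = true ∧
            missP owner ((T y).path (inst w')) = t)) := by
          ext y
          simp only [Finset.mem_filter, Finset.mem_univ, true_and]
          exact ⟨aux t w w' h y, aux t w' w h.symm y⟩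
        show Finset.card _ = Finset.card _
        rw [this]
      -- index type
      let C : Type := {c : Fin (d+1) → Fin (N ^ κ + 1) // ∑ t, (c t : ℕ) < N ^ κ + 1}
      refine ⟨Σ c : C, ι ⟨_, c.2⟩, inferInstance,
        fun z t w => decide (F t w = (z.1.1 t : ℕ)) && φ ⟨_, z.1.2⟩ z.2 t w, ?_, ?_, ?_⟩
      · rw [Fintype.card_sigma]
        calc ∑ c : C, Fintype.card (ι ⟨_, c.2⟩) ≤ ∑ c : C, B ^ D :=
              Finset.sum_le_sum fun c _ => hc _
          _ = Fintype.card C * B ^ D := by
              rw [Finset.sum_const, Finset.card_univ, smul_eq_mul]
          _ ≤ B * B ^ D := by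
              apply Nat.mul_le_mul_right
              refine le_trans (Fintype.card_subtype_le _) ?_
              rw [Fintype.card_fun, Fintype.card_fin, Fintype.card_fin]
              refine le_trans (Nat.pow_le_pow_left ?_ _) hB
              have h1 : N ^ κ ≤ (N₀ + 1) ^ κ := Nat.pow_le_pow_left (by omega) _
              have h2 : (N₀ + 1) ^ κ ≤ (N₀ + 1) ^ κ₀ := Nat.pow_le_pow_right (by omega) hκ
              omega
          _ = B ^ (D + 1) := by ring
      · intro z t w w' h
        simp only [hFind t w w' h, hi _ z.2 t w w' h]
      · intro w
        have hs : ∑ t, ((⟨F t w, hFlt t w⟩ : Fin (N ^ κ + 1)) : ℕ) < N ^ κ + 1 := by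
          simp only
          rw [hFsum]
          exact countOf_lt T _
        let c0 : C := ⟨fun t => ⟨F t w, hFlt t w⟩, hs⟩
        have heq : (⟨countOf T (inst w), countOf_lt T (inst w)⟩ : Fin (N ^ κ + 1))
            = ⟨∑ t, (c0.1 t : ℕ), c0.2⟩ := by
          apply Fin.ext
          simp only [c0]
          rw [hFsum]
        have hacc : ind ((Strat.count N κ T next).Accepts (inst w))
            = ind ((next ⟨∑ t, (c0.1 t : ℕ), c0.2⟩).Accepts (inst w)) := by
          apply ind_congr
          simp only [Strat.Accepts]
          rw [heq]
        rw [hacc, ha, Fintype.sum_sigma, Finset.sum_eq_single c0]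
        · refine Finset.sum_congr rfl fun i _ => Finset.prod_congr rfl fun t _ => ?_
          have : decide (F t w = (c0.1 t : ℕ)) = true := by simp [c0]
          simp only [this, Bool.true_and]
        · intro c _ hne
          refine Finset.sum_eq_zero fun i _ => ?_
          have hex : ∃ t, F t w ≠ (c.1 t : ℕ) := by
            by_contra hcon
            push Not at hcon
            apply hne
            apply Subtype.ext
            funext t
            apply Fin.ext
            exact (hcon t).symm
          obtain ⟨t, ht⟩ := hex
          refine Finset.prod_eq_zero (Finset.mem_univ t) ?_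
          simp [ht]
        · intro h
          exact absurd (Finset.mem_univ _) h

end Pool.Agent.Lib_helper58.RToda
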