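import Pool.Agent.Lib_helper58.RToda.Fourier
import Pool.Agent.Lib_helper62.PToda.Main

namespace Pool.Agent.Lib_helper58.RToda

open Finset Pool.Agent.Lib_helper62.PToda

/-- The problem with parameter `k` on the input `n` (in unary): is there a `k`-tuple `s` of
elements of `{0, ..., n-1}` such that for every `v` in `{0, ..., n-1}` there is `t` in
`{0, ..., n-1}` with `A (k, n, s ++ [v], t)`? -/
def Yes3 (A : Bits → Bool) (k n : ℕ) : Prop :=
  ∃ s : Fin k → Fin n, ∀ v : Fin n, ∃ t : Fin n,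
    A (k, n, List.ofFn (fun i => (s i : ℕ)) ++ [(v : ℕ)], (t : ℕ)) = true

section inst
variable {m C r L d k n : ℕ}

/-- Outer codes: a block and a guess of the parities of its parts. -/
abbrev Outer (m C : ℕ) : Type := Fin m × (Fin C → Bool)

/-- Inner codes: a part and a certificate of its bits (values and pointers). -/
abbrev Inner (C r L d : ℕ) : Type := Fin C × (Fin r → Bool × (Fin d → Fin L))

/-- The objection of player `t` to a certificate. -/
noncomputable def obj (w : Inp (Fin m × (Fin C × Fin r)) L d) (j : Fin m) (f : Inner C r L d) (t : ℕ) :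
    Prop :=
  if t = 0 then ∃ i, w.2 (j, (f.1, i)) (f.2 i).2 ≠ (f.2 i).1
  else if h : t - 1 < d then ∃ i, w.1 ⟨t - 1, h⟩ (j, (f.1, i)) ≠ (f.2 i).2 ⟨t - 1, h⟩
  else False

/-- The bit with address `(e, f, t)`. -/
def bitP (w : Inp (Fin m × (Fin C × Fin r)) L d) (e : Outer m C) (f : Inner C r L d) (t : ℕ) :
    Prop :=
  ∏ b, sgn (e.2 b) = -1 ∧ (obj w e.1 f t ∨ ∏ i, sgn (f.2 i).1 = sgn (e.2 f.1))

open Classical in
/-- The oracle of an input of the players. -/
noncomputable def mkInst3 (emb : Outer m C ↪ (Fin k → Fin n)) (emb2 : Inner C r L d ↪ Fin n)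
    (A₀ : Bits → Bool) (w : Inp (Fin m × (Fin C × Fin r)) L d) : Bits → Bool := fun b =>
  if b.1 = k ∧ b.2.1 = n then
    decide ((∃ e f, code (emb e) ++ [(emb2 f : ℕ)] = b.2.2.1 ∧ bitP w e f b.2.2.2) ∨
      (∃ e, ∃ v : ℕ, code (emb e) ++ [v] = b.2.2.1 ∧ ∀ f, (emb2 f : ℕ) ≠ v))
  else A₀ b

open Classical in
/-- The player who owns a bit. -/
noncomputable def mkOwner3 (k n d : ℕ) : Bits → Option (Fin (d+1)) := fun b =>
  if b.1 = k ∧ b.2.1 = n then
    (if h' : b.2.2.2 < d + 1 then some ⟨b.2.2.2, h'⟩ else none)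
  else none

lemma obj_congr (t : Fin (d+1)) (w w' : Inp (Fin m × (Fin C × Fin r)) L d)
    (h : AgreeOff t w w') (j : Fin m) (f : Inner C r L d) (v : ℕ) (hv : v ≠ t.1) :
    obj w j f v ↔ obj w' j f v := by
  unfold obj
  split_ifs with h0 h1
  · rw [h.1 (fun ht => hv (by rw [h0, ht]; rfl))]
  · have := h.2 ⟨v - 1, h1⟩ (fun ht => hv (by
      rw [← ht]
      simp only [Fin.val_succ]
      omega))
    rw [this]
  · rfl

lemma mkInst3_congr (emb : Outer m C ↪ (Fin k → Fin n)) (emb2 : Inner C r L d ↪ Fin n)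
    (A₀ : Bits → Bool) (t : Fin (d+1)) (w w' : Inp (Fin m × (Fin C × Fin r)) L d)
    (h : AgreeOff t w w') (b : Bits) (hb : mkOwner3 k n d b ≠ some t) :
    mkInst3 emb emb2 A₀ w b = mkInst3 emb emb2 A₀ w' b := by
  classical
  unfold mkOwner3 at hb
  unfold mkInst3
  by_cases h1 : b.1 = k ∧ b.2.1 = n
  · rw [if_pos h1] at hb ⊢
    rw [if_pos h1]
    have hv : b.2.2.2 ≠ t.1 := by
      intro hv
      apply hb
      rw [dif_pos (by rw [hv]; exact t.2)]
      congr 1
      exact Fin.ext hv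
    have e : ∀ (e : Outer m C) (f : Inner C r L d), bitP w e f b.2.2.2 ↔ bitP w' e f b.2.2.2 := by
      intro e f
      unfold bitP
      rw [obj_congr t w w' h e.1 f _ hv]
    simp only [e]
  · rw [if_neg h1, if_neg h1]

lemma mkInst3_off (emb : Outer m C ↪ (Fin k → Fin n)) (emb2 : Inner C r L d ↪ Fin n)
    (A₀ : Bits → Bool) (w : Inp (Fin m × (Fin C × Fin r)) L d) (b : Bits)
    (hb : ¬ (b.1 = k ∧ b.2.1 = n)) :
    mkInst3 emb emb2 A₀ w b = A₀ b := by
  classical
  unfold mkInst3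
  rw [if_neg hb]

lemma append_inj' {l l' : List ℕ} {a a' : ℕ} (h : l ++ [a] = l' ++ [a']) : l = l' ∧ a = a' := by
  have := List.append_inj' h rfl
  exact ⟨this.1, by simpa using this.2⟩

lemma mkInst3_slice (emb : Outer m C ↪ (Fin k → Fin n)) (emb2 : Inner C r L d ↪ Fin n)
    (A₀ : Bits → Bool) (w : Inp (Fin m × (Fin C × Fin r)) L d) (e : Outer m C)
    (f : Inner C r L d) (t : ℕ) :
    mkInst3 emb emb2 A₀ w (k, n, code (emb e) ++ [(emb2 f : ℕ)], t) = true ↔ bitP w e f t := by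
  classical
  unfold mkInst3
  rw [if_pos ⟨rfl, rfl⟩, decide_eq_true_eq]
  constructor
  · rintro (⟨e', f', h, hb⟩ | ⟨e', v, h, hv⟩)
    · obtain ⟨h1, h2⟩ := append_inj' h
      have h3 := emb.injective (code_injective h1)
      have h4 := emb2.injective (Fin.ext h2)
      rw [← h3, ← h4]
      exact hb
    · obtain ⟨h1, h2⟩ := append_inj' h
      exact absurd h2.symm (hv f)
  · intro hb
    exact Or.inl ⟨e, f, rfl, hb⟩

lemma mkInst3_slice' (emb : Outer m C ↪ (Fin k → Fin n)) (emb2 : Inner C r L d ↪ Fin n)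
    (A₀ : Bits → Bool) (w : Inp (Fin m × (Fin C × Fin r)) L d) (s : Fin k → Fin n) (v t : ℕ)
    (hs : ¬ ∃ e, emb e = s) :
    mkInst3 emb emb2 A₀ w (k, n, code s ++ [v], t) = false := by
  classical
  unfold mkInst3
  rw [if_pos ⟨rfl, rfl⟩, decide_eq_false_iff_not]
  rintro (⟨e', f', h, hb⟩ | ⟨e', v, h, hv⟩)
  · exact hs ⟨e', code_injective (append_inj' h).1⟩
  · exact hs ⟨e', code_injective (append_inj' h).1⟩

lemma mkInst3_slice'' (emb : Outer m C ↪ (Fin k → Fin n)) (emb2 : Inner C r L d ↪ Fin n)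
    (A₀ : Bits → Bool) (w : Inp (Fin m × (Fin C × Fin r)) L d) (e : Outer m C) (v t : ℕ)
    (hv : ∀ f, (emb2 f : ℕ) ≠ v) :
    mkInst3 emb emb2 A₀ w (k, n, code (emb e) ++ [v], t) = true := by
  classical
  unfold mkInst3
  rw [if_pos ⟨rfl, rfl⟩, decide_eq_true_eq]
  exact Or.inr ⟨e, v, rfl, hv⟩

lemma exists_sgn {ι : Type} [Fintype ι] (f : ι → Bool) : ∃ b : Bool, sgn b = ∏ i, sgn (f i) := by
  rcases prod_sgn Finset.univ f with h | h
  · exact ⟨false, by rw [h]; simp [sgn]⟩
  · exact ⟨true, by rw [h]; simp [sgn]⟩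

lemma chi_eq_prod (w : Inp (Fin m × (Fin C × Fin r)) L d) (j : Fin m) :
    chi w j = ∏ b : Fin C, ∏ i : Fin r, sgn (w.2 (j, (b, i)) (fun t => w.1 t (j, (b, i)))) := by
  unfold chi
  rw [Fintype.prod_prod_type]

lemma yes3_mkInst (hn : d + 1 ≤ n) (hC : 1 ≤ C) (emb : Outer m C ↪ (Fin k → Fin n))
    (emb2 : Inner C r L d ↪ Fin n) (A₀ : Bits → Bool)
    (w : Inp (Fin m × (Fin C × Fin r)) L d) :
    Yes3 (mkInst3 emb emb2 A₀ w) k n ↔ ∃ j, chi w j = -1 := by
  constructor
  · rintro ⟨s, hs⟩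
    by_cases hex : ∃ e, emb e = s
    · obtain ⟨⟨j, p⟩, rfl⟩ := hex
      -- the right certificates
      let cert : Fin C → Inner C r L d := fun b =>
        (b, fun i => (w.2 (j, (b, i)) (fun t => w.1 t (j, (b, i))), fun t => w.1 t (j, (b, i))))
      have hb : ∀ b : Fin C, ∏ b, sgn (p b) = -1 ∧
          ∏ i, sgn (w.2 (j, (b, i)) (fun t => w.1 t (j, (b, i)))) = sgn (p b) := by
        intro b
        obtain ⟨t, ht⟩ := hs (emb2 (cert b))
        have ht' := (mkInst3_slice emb emb2 A₀ w (j, p) (cert b) (t : ℕ)).1 ht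
        obtain ⟨h1, h2⟩ := ht'
        refine ⟨h1, ?_⟩
        rcases h2 with h2 | h2
        · exfalso
          unfold obj at h2
          split_ifs at h2 with h0 h3
          · obtain ⟨i, hi⟩ := h2
            exact hi rfl
          · obtain ⟨i, hi⟩ := h2
            exact hi rfl
        · exact h2
      refine ⟨j, ?_⟩
      rw [chi_eq_prod, Finset.prod_congr rfl (fun b _ => (hb b).2)]
      exact (hb ⟨0, by omega⟩).1
    · obtain ⟨t, ht⟩ := hs ⟨0, by omega⟩
      have h2 := mkInst3_slice' emb emb2 A₀ w s 0 (t : ℕ) hex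
      unfold code at h2
      simp only at ht
      rw [h2] at ht
      exact absurd ht (by simp)
  · rintro ⟨j, hj⟩
    choose p hp using fun b : Fin C =>
      exists_sgn (fun i : Fin r => w.2 (j, (b, i)) (fun t => w.1 t (j, (b, i))))
    rw [chi_eq_prod, ← Finset.prod_congr rfl (fun b _ => hp b)] at hj
    refine ⟨emb (j, p), fun v => ?_⟩
    by_cases hv : ∃ f, emb2 f = v
    · obtain ⟨f, rfl⟩ := hv
      have key : ∃ t : ℕ, t < n ∧ bitP w (j, p) f t := by
        by_cases hptr : ∃ (t : Fin d) (i : Fin r), w.1 t (j, (f.1, i)) ≠ (f.2 i).2 t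
        · obtain ⟨t, i, hti⟩ := hptr
          refine ⟨t.1 + 1, by have := t.2; omega, hj, Or.inl ?_⟩
          unfold obj
          rw [if_neg (by omega), dif_pos (by have := t.2; omega)]
          exact ⟨i, hti⟩
        · push Not at hptr
          by_cases hval : ∃ i : Fin r, w.2 (j, (f.1, i)) (f.2 i).2 ≠ (f.2 i).1
          · refine ⟨0, by omega, hj, Or.inl ?_⟩
            unfold obj
            rw [if_pos rfl]
            exact hval
          · push Not at hval
            refine ⟨0, by omega, hj, Or.inr ?_⟩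
            show ∏ i, sgn (f.2 i).1 = sgn (p f.1)
            rw [hp]
            refine Finset.prod_congr rfl fun i _ => ?_
            have : (fun t => w.1 t (j, (f.1, i))) = (f.2 i).2 := funext fun t => hptr t i
            rw [this, hval i]
      obtain ⟨t, ht, hb⟩ := key
      refine ⟨⟨t, ht⟩, ?_⟩
      exact (mkInst3_slice emb emb2 A₀ w (j, p) f t).2 hb
    · refine ⟨⟨0, by omega⟩, ?_⟩
      exact mkInst3_slice'' emb emb2 A₀ w (j, p) (v : ℕ) 0
        (fun f hf => hv ⟨f, Fin.ext hf⟩)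

end inst

end Pool.Agent.Lib_helper58.RToda
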