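import Pool.Agent.Lib_helper62.PToda.Diag

namespace Pool.Agent.Lib_helper58.RToda

open Finset Filter Pool.Agent.Lib_helper62.PToda

lemma cast_ineq (n m X K T : ℕ) (hn : 300 ≤ n) (k : ℕ) (hm : m ≤ n ^ k) (hX : n ^ (k + 1) ≤ 4 ^ X)
    (hK : 1 ≤ K) (hT : T ≤ n ^ (K - 1)) :
    (m:ℝ) * ((1:ℝ) / 4) ^ X ≤ 1 ∧
      (T:ℝ) * (3 * ((m:ℝ) * ((1:ℝ) / 4) ^ X) ^ (K + 1)) ≤ 1 / 100 := by
  have hn0 : (0:ℝ) < n := by
    have : 0 < n := by omega
    exact_mod_cast this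
  have h300 : (300:ℝ) ≤ n := by exact_mod_cast hn
  have h1 : (m:ℝ) * ((1:ℝ) / 4) ^ X ≤ 1 / n := by
    have hm' : (m:ℝ) ≤ (n:ℝ) ^ k := by exact_mod_cast hm
    have hX' : (n:ℝ) ^ (k + 1) ≤ (4:ℝ) ^ X := by exact_mod_cast hX
    rw [one_div, inv_pow, ← div_eq_mul_inv, div_le_div_iff₀ (by positivity) hn0]
    calc (m:ℝ) * n ≤ (n:ℝ) ^ k * n := mul_le_mul_of_nonneg_right hm' hn0.le
      _ = (n:ℝ) ^ (k + 1) := by rw [pow_succ]
      _ ≤ 1 * (4:ℝ) ^ X := by rw [one_mul]; exact hX'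
  refine ⟨h1.trans ?_, ?_⟩
  · rw [div_le_one hn0]; linarith
  · have hT' : (T:ℝ) ≤ (n:ℝ) ^ (K - 1) := by exact_mod_cast hT
    have h2 : ((m:ℝ) * ((1:ℝ) / 4) ^ X) ^ (K + 1) ≤ (1 / (n:ℝ)) ^ (K + 1) :=
      pow_le_pow_left₀ (by positivity) h1 _
    calc (T:ℝ) * (3 * ((m:ℝ) * ((1:ℝ) / 4) ^ X) ^ (K + 1))
        ≤ (n:ℝ) ^ (K - 1) * (3 * (1 / (n:ℝ)) ^ (K + 1)) := by
          apply mul_le_mul hT' _ (by positivity) (by positivity)
          linarith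
      _ = 3 / (n:ℝ) ^ 2 := by
          obtain ⟨K', rfl⟩ : ∃ K', K = K' + 1 := ⟨K - 1, by omega⟩
          rw [Nat.add_sub_cancel, one_div, inv_pow, pow_add (n:ℝ) (K' + 1) 1, pow_add (n:ℝ) K' 1]
          field_simp
      _ ≤ 1 / 100 := by
          rw [div_le_div_iff₀ (by positivity) (by norm_num)]
          nlinarith

lemma params3 (c k F G : ℕ) (hk : 2 * c < k) :
    ∀ᶠ n : ℕ in atTop, G + 1 ≤ n ∧ ∃ m C r K, 1 ≤ C ∧ 1 ≤ r ∧ 1 ≤ K ∧ m * 2 ^ C ≤ n ^ k ∧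
      C * (2 * ptr G ^ G) ^ r ≤ n ∧ 200 * K ^ 2 ≤ m ∧
      (m:ℝ) * ((1:ℝ) / 4) ^ (C * r) ≤ 1 ∧
      (((((F * n ^ c + 1) ^ G + 1) ^ (G + 1)) ^ (F * n ^ c) : ℕ) : ℝ) *
        (3 * ((m:ℝ) * ((1:ℝ) / 4) ^ (C * r)) ^ (K + 1)) ≤ 1 / 100 := by
  set Λ := 2 * ptr G ^ G with hΛ
  have hP : 0 < ptr G ^ G := pow_pos (ptr_pos G) _
  have hΛ2 : 2 ≤ Λ := by omega
  set C := (k + 2) * Λ with hC
  set E := (c + 1) * (G + 1) * (G + 1) * F with hE
  have hC1 : 1 ≤ C := by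
    have : 1 * 1 ≤ (k + 2) * Λ := Nat.mul_le_mul (by omega) (by omega)
    omega
  filter_upwards [eventually_ge_atTop (G + F + 300), eventually_ge_atTop (C * Λ),
    eventually_ge_atTop (C ^ (k + 2)), eventually_ge_atTop (200 * (E + 1) ^ 2 * 2 ^ C)]
    with n hn1 hn2 hn3 hn4
  have hn0 : 0 < n := by omega
  have hnc : 1 ≤ n ^ c := Nat.one_le_pow _ _ hn0
  have hq : Λ ≤ n / C := (Nat.le_div_iff_mul_le (by omega)).2 (by rw [mul_comm]; exact hn2)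
  have hr1 : 1 ≤ Nat.log Λ (n / C) := Nat.log_pos (by omega) hq
  refine ⟨by omega, n ^ k / 2 ^ C, C, Nat.log Λ (n / C), E * n ^ c + 1, hC1, hr1, by omega,
    Nat.div_mul_le_self _ _, ?_, ?_, ?_⟩
  · have h1 : Λ ^ Nat.log Λ (n / C) ≤ n / C := Nat.pow_log_le_self _ (by omega)
    calc C * Λ ^ Nat.log Λ (n / C) ≤ C * (n / C) := Nat.mul_le_mul_left _ h1
      _ ≤ n := Nat.mul_div_le _ _
  · rw [Nat.le_div_iff_mul_le (by positivity)]
    have h1 : E * n ^ c + 1 ≤ (E + 1) * n ^ c := by nlinarith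
    calc 200 * (E * n ^ c + 1) ^ 2 * 2 ^ C ≤ 200 * ((E + 1) * n ^ c) ^ 2 * 2 ^ C := by
          apply Nat.mul_le_mul_right
          apply Nat.mul_le_mul_left
          exact Nat.pow_le_pow_left h1 2
      _ = (200 * (E + 1) ^ 2 * 2 ^ C) * n ^ (2 * c) := by ring
      _ ≤ n * n ^ (2 * c) := Nat.mul_le_mul_right _ hn4
      _ = n ^ (2 * c + 1) := by rw [pow_succ, mul_comm]
      _ ≤ n ^ k := Nat.pow_le_pow_right hn0 hk
  · set r := Nat.log Λ (n / C) with hr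
    refine cast_ineq n (n ^ k / 2 ^ C) (C * r) (E * n ^ c + 1) _ (by omega) k
      (Nat.div_le_self _ _) ?_ (by omega) ?_
    · -- n ^ (k+1) ≤ 4 ^ (C * r)
      have h1 : n / C + 1 ≤ Λ ^ (r + 1) := Nat.lt_pow_succ_log_self (by omega) _
      have h2 : Λ ^ 2 ≤ 4 ^ Λ := by
        have : Λ ≤ 2 ^ Λ := Nat.lt_two_pow_self.le
        calc Λ ^ 2 ≤ (2 ^ Λ) ^ 2 := Nat.pow_le_pow_left this 2
          _ = 4 ^ Λ := by rw [← pow_mul, mul_comm, pow_mul]; norm_num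
      have h3 : Λ ^ (r + 1) ≤ 4 ^ (Λ * r) := by
        calc Λ ^ (r + 1) ≤ Λ ^ (2 * r) := Nat.pow_le_pow_right (by omega) (by omega)
          _ = (Λ ^ 2) ^ r := by rw [pow_mul]
          _ ≤ (4 ^ Λ) ^ r := Nat.pow_le_pow_left h2 r
          _ = 4 ^ (Λ * r) := (pow_mul 4 Λ r).symm
      have h4 : n ≤ C * 4 ^ (Λ * r) := by
        have h5 : n < C * (n / C + 1) := by
          have := Nat.lt_mul_div_succ n (show 0 < C by omega)
          exact this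
        calc n ≤ C * (n / C + 1) := h5.le
          _ ≤ C * 4 ^ (Λ * r) := Nat.mul_le_mul_left _ (h1.trans h3)
      have h6 : n ^ (k + 2) ≤ C ^ (k + 2) * 4 ^ (C * r) := by
        calc n ^ (k + 2) ≤ (C * 4 ^ (Λ * r)) ^ (k + 2) := Nat.pow_le_pow_left h4 _
          _ = C ^ (k + 2) * 4 ^ (C * r) := by
              rw [mul_pow, ← pow_mul, hC]
              congr 2
              ring
      have h7 : C ^ (k + 2) * n ^ (k + 1) ≤ C ^ (k + 2) * 4 ^ (C * r) := by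
        refine le_trans ?_ h6
        calc C ^ (k + 2) * n ^ (k + 1) ≤ n * n ^ (k + 1) := Nat.mul_le_mul_right _ hn3
          _ = n ^ (k + 2) := by rw [pow_succ n (k + 1), mul_comm]
      exact Nat.le_of_mul_le_mul_left h7 (by positivity)
    · -- T ≤ n ^ (K - 1)
      rw [Nat.add_sub_cancel]
      have hb1 : F * n ^ c + 2 ≤ n ^ (c + 1) := by
        rw [pow_succ, mul_comm (n ^ c)]
        calc F * n ^ c + 2 ≤ F * n ^ c + 2 * n ^ c := by omega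
          _ = (F + 2) * n ^ c := by ring
          _ ≤ n * n ^ c := Nat.mul_le_mul_right _ (by omega)
      have hb3 : (F * n ^ c + 1) ^ G + 1 ≤ (n ^ (c + 1)) ^ (G + 1) := by
        calc (F * n ^ c + 1) ^ G + 1 ≤ (F * n ^ c + 2) ^ (G + 1) := by
              have h1 : (F * n ^ c + 1) ^ G ≤ (F * n ^ c + 2) ^ G := Nat.pow_le_pow_left (by omega) _
              have h2 : 1 ≤ (F * n ^ c + 2) ^ G := Nat.one_le_pow _ _ (by omega)
              calc (F * n ^ c + 1) ^ G + 1 ≤ (F * n ^ c + 2) ^ G + (F * n ^ c + 2) ^ G := by omega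
                _ = (F * n ^ c + 2) ^ G * 2 := by ring
                _ ≤ (F * n ^ c + 2) ^ G * (F * n ^ c + 2) := Nat.mul_le_mul_left _ (by omega)
                _ = (F * n ^ c + 2) ^ (G + 1) := by rw [pow_succ]
          _ ≤ _ := Nat.pow_le_pow_left hb1 _
      refine (Nat.pow_le_pow_left (Nat.pow_le_pow_left hb3 _) _).trans (le_of_eq ?_)
      rw [← pow_mul, ← pow_mul, ← pow_mul]
      congr 1
      rw [hE]
      ring

end Pool.Agent.Lib_helper58.RToda
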