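import Pool.Agent.Lib_helper58.RToda.Analytic
import Pool.Agent.Lib_helper58.RToda.Inst
import Pool.Agent.Lib_helper58.RToda.Params

namespace Pool.Agent.Lib_helper58.RToda

open Finset Filter Pool.Agent.Lib_helper62.PToda

/-- Randomised oracle algorithms: a uniformly random element `ω` of a finite set is chosen, and
the algorithm `run ω` is executed. -/
structure RandAlg (β : Type) where
  /-- There are `coins + 1` random outcomes. -/
  coins : ℕ
  /-- The algorithm for every random outcome. -/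
  run : Fin (coins + 1) → Strat β

open Classical in
/-- The probability of acceptance. -/
noncomputable def RandAlg.prob {β : Type} (S : RandAlg β) (x : β → Bool) : ℝ :=
  ((Finset.univ.filter (fun ω => (S.run ω).Accepts x)).card : ℝ) / ((S.coins : ℝ) + 1)

lemma RandAlg.prob_eq {β : Type} (S : RandAlg β) (x : β → Bool) :
    S.prob x = av (fun ω => ind ((S.run ω).Accepts x)) := by
  classical
  unfold RandAlg.prob av
  rw [Fintype.card_fin]
  push_cast
  congr 1
  rw [Finset.card_filter]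
  push_cast
  refine Finset.sum_congr rfl fun ω _ => ?_
  by_cases h : (S.run ω).Accepts x
  · rw [ind_true h, if_pos h]
  · rw [ind_false h, if_neg h]

lemma av_swap {Y Z : Type} [Fintype Y] [Fintype Z] (f : Y → Z → ℝ) :
    av (fun y => av (fun z => f y z)) = av (fun z => av (fun y => f y z)) := by
  rw [← av_prod, av_prod' f]

/-- One instance. -/
theorem instance_contra (k n d m C r K N₀ κ₀ D : ℕ) (hn : d + 1 ≤ n) (hC : 1 ≤ C) (hr : 1 ≤ r)
    (hK : 1 ≤ K) (hm : m * 2 ^ C ≤ n ^ k) (hC2 : C * (2 * ptr d ^ d) ^ r ≤ n)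
    (hKm : 200 * K ^ 2 ≤ m) (hδ : (m:ℝ) * ((1:ℝ) / 4) ^ (C * r) ≤ 1)
    (herr : (((((N₀ + 1) ^ κ₀ + 1) ^ (d + 1)) ^ D : ℕ) : ℝ) *
        (3 * ((m:ℝ) * ((1:ℝ) / 4) ^ (C * r)) ^ (K + 1)) ≤ 1 / 100)
    (A₀ : Bits → Bool) (S : RandAlg Bits) (hdet : ∀ ω, (S.run ω).Deterministic)
    (hS : ∀ ω, (S.run ω).Within N₀ κ₀ d D)
    (hdec : ∀ A : Bits → Bool, (∀ b : Bits, ¬ (b.1 = k ∧ b.2.1 = n) → A b = A₀ b) →
      ((Yes3 A k n → 2 / 3 ≤ S.prob A) ∧ (¬ Yes3 A k n → S.prob A ≤ 1 / 3))) : False := by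
  have hL := ptr_pos d
  have hneL : Nonempty (Fin (ptr d)) := ⟨⟨0, hL⟩⟩
  have hneC : Nonempty (Fin C) := ⟨⟨0, by omega⟩⟩
  have hner : Nonempty (Fin r) := ⟨⟨0, by omega⟩⟩
  have hcard : Fintype.card (Outer m C) ≤ Fintype.card (Fin k → Fin n) := by
    simp only [Outer, Fintype.card_prod, Fintype.card_fin, Fintype.card_fun, Fintype.card_bool]
    exact hm
  have hcard2 : Fintype.card (Inner C r (ptr d) d) ≤ Fintype.card (Fin n) := by
    simp only [Inner, Fintype.card_prod, Fintype.card_fin, Fintype.card_fun, Fintype.card_bool]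
    exact hC2
  obtain ⟨emb⟩ := Function.Embedding.nonempty_of_card_le hcard
  obtain ⟨emb2⟩ := Function.Embedding.nonempty_of_card_le hcard2
  have hB1 : 1 ≤ ((N₀ + 1) ^ κ₀ + 1) ^ (d + 1) := Nat.one_le_pow _ _ (by omega)
  let W : Type := Inp (Fin m × (Fin C × Fin r)) (ptr d) d
  let inst : W → Bits → Bool := mkInst3 emb emb2 A₀
  have hyes3 : ∀ w : W, Yes3 (inst w) k n ↔ ∃ j, chi w j = -1 :=
    fun w => yes3_mkInst hn hC emb emb2 A₀ w
  have hoff : ∀ w : W, ∀ b : Bits, ¬ (b.1 = k ∧ b.2.1 = n) → inst w b = A₀ b :=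
    fun w b hb => mkInst3_off emb emb2 A₀ w b hb
  have hcI : Fintype.card (Fin C × Fin r) = C * r := by simp
  refine analytic_core (W := W) (M := Fin m) (fun w j => chi w j) (fun w j => chi_eq w j)
    (fun U hU => av_chi hL U hU) (fun w => S.prob (inst w)) ?_ ?_
    (((((N₀ + 1) ^ κ₀ + 1) ^ (d + 1)) ^ D : ℕ) : ℝ) (((1:ℝ) / 4) ^ (C * r)) (by positivity)
    (by positivity) ?_ ?_ ?_ m K (by simp) hK hKm hδ herr
  · intro w
    rw [RandAlg.prob_eq]
    exact av_nonneg fun ω => ind_nonneg _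
  · intro w
    rw [RandAlg.prob_eq]
    exact (av_mono fun ω => ind_le_one _).trans (le_of_eq (av_const 1))
  · intro U
    have e1 : (fun w : W => S.prob (inst w) * ∏ j ∈ U, chi w j)
        = (fun w : W => av (fun ω => ind ((S.run ω).Accepts (inst w)) * ∏ j ∈ U, chi w j)) := by
      funext w
      rw [RandAlg.prob_eq, mul_comm, ← av_mul_left]
      congr 1
      funext ω
      ring
    rw [e1, av_swap]
    refine (abs_av_le _).trans ?_
    refine le_trans (av_mono (g := fun _ =>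
      (((((N₀ + 1) ^ κ₀ + 1) ^ (d + 1)) ^ D : ℕ) : ℝ) * (((1:ℝ) / 4) ^ (C * r)) ^ U.card) ?_)
      (le_of_eq (av_const _))
    intro ω
    have := strat_small (M := Fin m) (I := Fin C × Fin r) (d := d) inst (mkOwner3 k n d)
      (fun t w w' h b hb => mkInst3_congr emb emb2 A₀ t w w' h b hb) N₀ κ₀
      (((N₀ + 1) ^ κ₀ + 1) ^ (d + 1)) hB1 le_rfl (S.run ω) (hdet ω) D (hS ω) U
    rw [hcI] at this
    push_cast at this ⊢
    exact this
  · intro w hw
    apply (hdec (inst w) (hoff w)).2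
    rw [hyes3]
    rintro ⟨j, hj⟩
    have := hw j
    rw [this] at hj
    norm_num at hj
  · intro w hw
    exact (hdec (inst w) (hoff w)).1 ((hyes3 w).2 hw)

lemma RandAlg.finite (S : RandAlg Bits) : ∃ N : ℕ, ∀ A A' : Bits → Bool,
    (∀ b : Bits, b.2.1 ≤ N → A b = A' b) → S.prob A = S.prob A' := by
  classical
  choose M hM using fun ω => Strat.finite (S.run ω)
  refine ⟨Finset.univ.sup M, fun A A' h => ?_⟩
  unfold RandAlg.prob
  have : ∀ ω, ((S.run ω).Accepts A ↔ (S.run ω).Accepts A') := fun ω => hM ω A A' (fun b hb => h b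
    (le_trans hb (Finset.le_sup (f := M) (Finset.mem_univ ω))))
  simp only [this]

/-- Bounded error at `(k, n)`. -/
def Solves (S : RandAlg Bits) (A : Bits → Bool) (k n : ℕ) : Prop :=
  (Yes3 A k n → 2 / 3 ≤ S.prob A) ∧ (¬ Yes3 A k n → S.prob A ≤ 1 / 3)

theorem separation3 {ι : Type} [Countable ι] (alg : ι → ℕ → ℕ → RandAlg Bits)
    (hdet : ∀ i k n ω, ((alg i k n).run ω).Deterministic)
    (F G : ι → ℕ → ℕ) (c : ι → ℕ)
    (hw : ∀ i k n ω, ((alg i k n).run ω).Within (F i k * n ^ c i) (G i k) (G i k)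
      (F i k * n ^ c i)) :
    ∃ A : Bits → Bool, ∀ i k, 2 * c i < k → ∀ n₀, ∃ n, n₀ ≤ n ∧ ¬ Solves (alg i k n) A k n := by
  rcases isEmpty_or_nonempty ι with hι | hι
  · exact ⟨fun _ => false, fun i => (hι.false i).elim⟩
  obtain ⟨e, he⟩ := exists_surjective_nat (ι × ℕ × ℕ)
  -- one step
  have step : ∀ (s : ℕ) (σ : (Bits → Bool) × ℕ), ∃ σ' : (Bits → Bool) × ℕ,
      σ.2 < σ'.2 ∧ (∀ b : Bits, b.2.1 ≤ σ.2 → σ'.1 b = σ.1 b) ∧
      (2 * c (e s).1 < (e s).2.1 → ∃ n, (e s).2.2 ≤ n ∧ ∀ A : Bits → Bool,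
        (∀ b : Bits, b.2.1 ≤ σ'.2 → A b = σ'.1 b) →
        ¬ Solves (alg (e s).1 (e s).2.1 n) A (e s).2.1 n) := by
    intro s σ
    obtain ⟨i, k, n₀⟩ := e s
    simp only
    by_cases hk : 2 * c i < k
    · have hev := (params3 (c i) k (F i k) (G i k) hk).and
        ((eventually_ge_atTop (max n₀ (σ.2 + 1))))
      obtain ⟨n, ⟨hG, m, C, r, K, hC, hr, hK, hm, hC2, hKm, hδ, herr⟩, hn⟩ := hev.exists
      have hn0 : n₀ ≤ n := le_trans (le_max_left _ _) hn
      have hn1 : σ.2 + 1 ≤ n := le_trans (le_max_right _ _) hn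
      have hex : ∃ A : Bits → Bool, (∀ b : Bits, ¬ (b.1 = k ∧ b.2.1 = n) → A b = σ.1 b) ∧
          ¬ Solves (alg i k n) A k n := by
        by_contra hcon
        exact instance_contra k n (G i k) m C r K (F i k * n ^ c i) (G i k) (F i k * n ^ c i)
          hG hC hr hK hm hC2 hKm hδ herr σ.1 (alg i k n) (hdet i k n) (hw i k n)
          (fun A hA => by_contra fun h => hcon ⟨A, hA, h⟩)
      obtain ⟨A, hA1, hA2⟩ := hex
      obtain ⟨N, hN⟩ := RandAlg.finite (alg i k n)
      refine ⟨(A, max n N), ?_, ?_, ?_⟩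
      · simp only
        have := le_max_left n N
        omega
      · intro b hb
        apply hA1
        rintro ⟨_, h2⟩
        omega
      · intro _
        refine ⟨n, hn0, fun A' hA' => ?_⟩
        have e1 : (alg i k n).prob A' = (alg i k n).prob A :=
          hN A' A (fun b hb => hA' b (le_trans hb (le_max_right _ _)))
        have e2 : Yes3 A' k n ↔ Yes3 A k n := by
          unfold Yes3
          have : ∀ (s : Fin k → Fin n) (v t : Fin n),
              A' (k, n, List.ofFn (fun i => (s i : ℕ)) ++ [(v : ℕ)], (t : ℕ))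
              = A (k, n, List.ofFn (fun i => (s i : ℕ)) ++ [(v : ℕ)], (t : ℕ)) :=
            fun s v t => hA' _ (le_max_left _ _)
          simp only [this]
        unfold Solves
        rw [e1, e2]
        exact hA2
    · exact ⟨(σ.1, σ.2 + 1), by simp, fun _ _ => rfl, fun h => absurd h hk⟩
  choose nxt h1 h2 h3 using step
  let σ : ℕ → (Bits → Bool) × ℕ := fun s => Nat.rec ((fun _ => false), 0) (fun s τ => nxt s τ) s
  have hσ : ∀ s, σ (s + 1) = nxt s (σ s) := fun s => rfl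
  have hM : ∀ s, s ≤ (σ s).2 := by
    intro s
    induction s with
    | zero => exact Nat.zero_le _
    | succ s ih =>
      rw [hσ]
      have := h1 s (σ s)
      omega
  have hMm : ∀ s t, s ≤ t → (σ s).2 ≤ (σ t).2 := by
    intro s t hst
    induction t, hst using Nat.le_induction with
    | base => exact le_rfl
    | succ t _ ih =>
      rw [hσ]
      have := h1 t (σ t)
      omega
  have hstab : ∀ s t, s ≤ t → ∀ b : Bits, b.2.1 ≤ (σ s).2 → (σ t).1 b = (σ s).1 b := by
    intro s t hst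
    induction t, hst using Nat.le_induction with
    | base => intro b _; rfl
    | succ t ht ih =>
      intro b hb
      rw [hσ, h2 t (σ t) b (le_trans hb (hMm s t ht)), ih b hb]
  refine ⟨fun b => (σ b.2.1).1 b, fun i k hk n₀ => ?_⟩
  obtain ⟨s, hs⟩ := he (i, k, n₀)
  have h := h3 s (σ s)
  rw [hs] at h
  obtain ⟨n, hn, hA⟩ := h hk
  refine ⟨n, hn, hA _ ?_⟩
  intro b hb
  rw [← hσ] at hb ⊢
  rcases le_total b.2.1 (s + 1) with hle | hle
  · exact (hstab b.2.1 (s + 1) hle b (hM _)).symm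
  · exact hstab (s + 1) b.2.1 hle b hb

end Pool.Agent.Lib_helper58.RToda
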