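import Pool.Agent.Lib_helper58.RToda.Cover
import Pool.Agent.Lib_helper62.PToda.Bound

namespace Pool.Agent.Lib_helper58.RToda

open Finset Pool.Agent.Lib_helper62.PToda

section
variable {M I : Type} [Fintype M] [DecidableEq M] [Fintype I] [DecidableEq I] {L d : ℕ}

/-- The sign of the parity of the selected bits of block `j`. -/
noncomputable def chi (w : Inp (M × I) L d) (j : M) : ℝ :=
  ∏ i : I, sgn (w.2 (j, i) (fun t => w.1 t (j, i)))

lemma prod_sgn {ι : Type*} (s : Finset ι) (f : ι → Bool) :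
    ∏ i ∈ s, sgn (f i) = 1 ∨ ∏ i ∈ s, sgn (f i) = -1 := by
  classical
  induction s using Finset.induction_on with
  | empty => left; simp
  | insert a s ha ih =>
    rw [Finset.prod_insert ha]
    cases f a <;> rcases ih with h | h <;> rw [h] <;> simp [sgn]

omit [Fintype M] [DecidableEq M] [DecidableEq I] in
lemma chi_eq (w : Inp (M × I) L d) (j : M) : chi w j = 1 ∨ chi w j = -1 := prod_sgn _ _

lemma av_chi [Nonempty I] (hL : 0 < L) (S : Finset M) (hS : S.Nonempty) :
    av (fun w : Inp (M × I) L d => ∏ j ∈ S, chi w j) = 0 := by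
  have : Nonempty (Fin L) := ⟨⟨0, hL⟩⟩
  have e0 : (fun w : Inp (M × I) L d => ∏ j ∈ S, chi w j)
      = (fun z : (Fin d → (M × I) → Fin L) × ((M × I) → (Fin d → Fin L) → Bool) =>
        ∏ j ∈ S, ∏ i : I, sgn (z.2 (j, i) (fun t => z.1 t (j, i)))) := rfl
  rw [e0, av_prod (fun (p : Fin d → (M × I) → Fin L) (X : (M × I) → (Fin d → Fin L) → Bool) =>
    ∏ j ∈ S, ∏ i : I, sgn (X (j, i) (fun t => p t (j, i))))]
  have h : ∀ p : Fin d → (M × I) → Fin L,
      av (fun X : (M × I) → (Fin d → Fin L) → Bool =>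
        ∏ j ∈ S, ∏ i : I, sgn (X (j, i) (fun t => p t (j, i)))) = 0 := by
    intro p
    have := av_char (J := M × I) (Q := Fin d → Fin L)
      ((S ×ˢ (Finset.univ : Finset I)).image (fun e => (e, fun t => p t e)))
      ((hS.product Finset.univ_nonempty).image _)
    rw [← this]
    congr 1
    funext X
    rw [Finset.prod_image, Finset.prod_product]
    intro a _ b _ hab
    exact (Prod.mk.inj hab).1
  simp only [h, av_const]

/-- Cylinder intersections have small correlation with the parities. -/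
lemma hat_small (S : Finset M) (φ : Fin (d+1) → Inp (M × I) (ptr d) d → Bool)
    (hi : ∀ t w w', AgreeOff t w w' → φ t w = φ t w') :
    |av (fun w : Inp (M × I) (ptr d) d => (∏ t, (if φ t w = true then (1:ℝ) else 0)) *
      ∏ j ∈ S, chi w j)| ≤ ((1:ℝ) / 4) ^ (S.card * Fintype.card I) := by
  have hL := ptr_pos d
  have hne : Nonempty (Fin (ptr d)) := ⟨⟨0, hL⟩⟩
  let X0 : (M × I) → (Fin d → Fin (ptr d)) → Bool := fun _ _ => false
  have hd := disc_bound (J := M × I) (ptr d) hL d ((M × I) → (Fin d → Fin (ptr d)) → Bool)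
    (S ×ˢ (Finset.univ : Finset I))
    (fun X => X) (fun E hE _ => av_char E hE)
    (fun p => if φ 0 (p, X0) = true then (1:ℝ) else 0)
    (fun t p X => if φ t.succ (p, X) = true then (1:ℝ) else 0)
    (fun p => by split_ifs <;> simp) (fun t p X => by split_ifs <;> simp)
    (fun t p p' X h => by
      have : φ t.succ (p, X) = φ t.succ (p', X) := by
        apply hi
        refine ⟨fun _ => rfl, fun k hk => ?_⟩
        exact h k (fun h => hk (by rw [h]))
      simp only [this])
  have heq : (fun w : Inp (M × I) (ptr d) d => (∏ t, (if φ t w = true then (1:ℝ) else 0)) *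
      ∏ j ∈ S, chi w j)
      = (fun z : (Fin d → (M × I) → Fin (ptr d)) × ((M × I) → (Fin d → Fin (ptr d)) → Bool) =>
      (∏ j ∈ S ×ˢ (Finset.univ : Finset I), sgn (z.2 j (fun i => z.1 i j))) *
        (if φ 0 (z.1, X0) = true then (1:ℝ) else 0) *
        ∏ t : Fin d, (if φ t.succ (z.1, z.2) = true then (1:ℝ) else 0)) := by
    funext w
    have h0 : φ 0 (w.1, X0) = φ 0 w := by
      apply hi
      exact ⟨fun h => absurd rfl h, fun k _ => rfl⟩
    rw [Fin.prod_univ_succ, h0, Finset.prod_product]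
    unfold chi
    ring
  rw [heq]
  set a := av (fun z : (Fin d → (M × I) → Fin (ptr d)) × ((M × I) → (Fin d → Fin (ptr d)) → Bool) =>
      (∏ j ∈ S ×ˢ (Finset.univ : Finset I), sgn (z.2 j (fun i => z.1 i j))) *
        (if φ 0 (z.1, X0) = true then (1:ℝ) else 0) *
        ∏ t : Fin d, (if φ t.succ (z.1, z.2) = true then (1:ℝ) else 0)) with ha'
  have h1 : |a| ^ (2 ^ d) ≤ (((1:ℝ) / 4) ^ (S.card * Fintype.card I)) ^ (2 ^ d) := by
    refine hd.trans ?_
    rw [← pow_mul, mul_comm (S.card * Fintype.card I), pow_mul, Finset.card_product,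
      Finset.card_univ]
    refine pow_le_pow_left₀ (by positivity) ?_ _
    unfold ptr
    push_cast
    rw [div_le_iff₀ (by positivity), one_div, inv_pow]
    rw [mul_comm ((d:ℝ)+1), ← mul_assoc, inv_mul_cancel₀ (by positivity), one_mul]
    linarith
  exact (pow_le_pow_iff_left₀ (abs_nonneg _) (by positivity) (by positivity)).1 h1

/-- Deterministic algorithms have small correlation with the parities. -/
theorem strat_small {β : Type} (inst : Inp (M × I) (ptr d) d → β → Bool)
    (owner : β → Option (Fin (d+1)))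
    (hown : ∀ t w w', AgreeOff t w w' → ∀ b, owner b ≠ some t → inst w b = inst w' b)
    (N₀ κ₀ : ℕ) (B : ℕ) (hB1 : 1 ≤ B) (hB : ((N₀ + 1) ^ κ₀ + 1) ^ (d + 1) ≤ B) (S : Strat β)
    (hdet : S.Deterministic) (D : ℕ) (hS : S.Within N₀ κ₀ d D) (U : Finset M) :
    |av (fun w => ind (S.Accepts (inst w)) * ∏ j ∈ U, chi w j)|
      ≤ (B:ℝ) ^ D * (((1:ℝ) / 4) ^ Fintype.card I) ^ U.card := by
  obtain ⟨ι, _, φ, hc, hi, ha⟩ := coverDet inst owner hown N₀ κ₀ B hB1 hB S hdet D hS
  have e : (fun w => ind (S.Accepts (inst w)) * ∏ j ∈ U, chi w j)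
      = (fun w => ∑ i, (∏ t, (if φ i t w = true then (1:ℝ) else 0)) * ∏ j ∈ U, chi w j) := by
    funext w
    rw [ha, Finset.sum_mul]
  rw [e, av_sum]
  refine (Finset.abs_sum_le_sum_abs _ _).trans ?_
  refine (Finset.sum_le_sum fun i _ => hat_small U (φ i) (hi i)).trans ?_
  rw [Finset.sum_const, Finset.card_univ, nsmul_eq_mul, ← pow_mul, mul_comm (U.card)]
  gcongr
  exact_mod_cast hc

end

end Pool.Agent.Lib_helper58.RToda
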